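import Pool.Agent.H41.SS.Targets

/-!
# Row AVG of the board ss_modules

Averaging over the assignments.
-/

set_option autoImplicit false

namespace Pool.Agent.H13.SSM

open Finset Pool.Agent.H97.RK Pool.Agent.H97.RL Pool.Agent.H41.SS

open Classical in
theorem pf_AVG : T_AVG := by
  intro n k m u Q B η hη hB
  set Q' := Q.filter fun F => ¬ (univ.filter fun x => B F x).card * 2 ^ (u + 1) ≤ 2 ^ n with hQ'
  have h1 : ∀ F ∈ Q', (2 : ℝ) ^ n ≤ ((univ.filter fun x => B F x).card : ℝ) * 2 ^ (u + 1) := by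
    intro F hF
    rw [hQ', mem_filter] at hF
    have h := (not_le.1 hF.2).le
    exact_mod_cast h
  have h2 : (Q'.card : ℝ) * 2 ^ n ≤
      ∑ F ∈ Q', ((univ.filter fun x => B F x).card : ℝ) * 2 ^ (u + 1) := by
    have := Finset.card_nsmul_le_sum Q' _ _ h1
    rwa [nsmul_eq_mul] at this
  have h3 : ∑ F ∈ Q', ((univ.filter fun x => B F x).card : ℝ) * 2 ^ (u + 1) ≤
      ∑ F ∈ Q, ((univ.filter fun x => B F x).card : ℝ) * 2 ^ (u + 1) :=
    Finset.sum_le_sum_of_subset_of_nonneg (filter_subset _ _) fun _ _ _ => by positivity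
  have h4 : ∑ F ∈ Q, (univ.filter fun x => B F x).card =
      ∑ x : Fin n → Bool, (Q.filter fun F => B F x).card := by
    simp only [Finset.card_eq_sum_ones, Finset.sum_filter]
    exact Finset.sum_comm
  have h5 : ∑ F ∈ Q, ((univ.filter fun x => B F x).card : ℝ) =
      ∑ x : Fin n → Bool, ((Q.filter fun F => B F x).card : ℝ) := by
    exact_mod_cast h4
  have h6 : ∑ x : Fin n → Bool, ((Q.filter fun F => B F x).card : ℝ) ≤ 2 ^ n * (η * Q.card) := by
    have := Finset.sum_le_card_nsmul (univ : Finset (Fin n → Bool))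
      (fun x => ((Q.filter fun F => B F x).card : ℝ)) (η * Q.card) fun x _ => hB x
    rw [nsmul_eq_mul] at this
    refine this.trans (le_of_eq ?_)
    congr 1
    simp
  have h8 : ∑ F ∈ Q, ((univ.filter fun x => B F x).card : ℝ) * 2 ^ (u + 1) =
      (∑ x : Fin n → Bool, ((Q.filter fun F => B F x).card : ℝ)) * 2 ^ (u + 1) := by
    rw [← h5, Finset.sum_mul]
  rw [h8] at h3
  have h7 : (Q'.card : ℝ) * 2 ^ n ≤ (η * 2 ^ (u + 1) * Q.card) * 2 ^ n := by
    refine (h2.trans h3).trans ?_
    refine (mul_le_mul_of_nonneg_right h6 (by positivity)).trans (le_of_eq ?_)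
    ring
  exact le_of_mul_le_mul_right h7 (by positivity)

end Pool.Agent.H13.SSM
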